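import Mathlib

set_option linter.all false

open Set Metric Topology Filter

namespace H56Mini

/-- `e^{2π i t}` -/
noncomputable def ee (t : ℝ) : ℂ := Complex.exp (2 * Real.pi * t * Complex.I)

abbrev EC (m : ℕ) := EuclideanSpace ℂ (Fin (m + 2))
abbrev Sph (m : ℕ) := Metric.sphere (0 : EC m) 1

noncomputable def bas (m : ℕ) : Sph m := ⟨EuclideanSpace.single 0 1, by simp⟩

/-- normalisation of a vector -/
noncomputable def nrm {m : ℕ} (v : Fin (m + 2) → ℂ) : Sph m :=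
  if h : v = 0 then bas m else
    ⟨((‖(WithLp.toLp 2 v : EC m)‖⁻¹ : ℝ) : ℂ) • (WithLp.toLp 2 v : EC m), by
      have h2 : (WithLp.toLp 2 v : EC m) ≠ 0 := by
        intro h3; apply h; simpa using h3
      have h4 : ‖(WithLp.toLp 2 v : EC m)‖ ≠ 0 := norm_ne_zero_iff.mpr h2
      simp [norm_smul, h4]⟩

/-- the circle action -/
noncomputable def RS {m : ℕ} (u : ℝ) (w : Sph m) : Sph m :=
  ⟨ee u • (w : EC m), by
    have h : ‖ee u‖ = 1 := by
      have := Complex.norm_exp_ofReal_mul_I (2 * Real.pi * u)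
      simpa [ee] using this
    have h2 : ‖(w : EC m)‖ = 1 := by simpa using w.2
    simp [norm_smul, h, h2]⟩

noncomputable def psi0 {m : ℕ} (y : ℝ × ℝ × (ℝ × (Fin m → ℂ))) : Fin (m + 2) → ℂ :=
  Fin.cons (ee y.2.1) (Fin.cons (ee (y.2.1 + y.1) * Real.exp y.2.2.1)
    (fun j => ee y.2.1 * y.2.2.2 j) : Fin (m + 1) → ℂ)

noncomputable def PsiS {m : ℕ} (y : ℝ × ℝ × (ℝ × (Fin m → ℂ))) : Sph m := nrm (psi0 y)

noncomputable def std0 {m : ℕ} (j : Fin (m + 2)) (y : ℝ × (Fin (m + 1) → ℂ)) : Fin (m + 2) → ℂ :=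
  ee y.1 • (Fin.insertNth (α := fun _ => ℂ) j 1 y.2)

noncomputable def StdS {m : ℕ} (j : Fin (m + 2)) (y : ℝ × (Fin (m + 1) → ℂ)) : Sph m :=
  nrm (std0 j y)

noncomputable def DS {m : ℕ} (j : Fin (m + 2)) (z : Fin (m + 1) → ℂ) : Fin (m + 1) → ℂ :=
  if (j : ℕ) ≤ 1 then Function.update z 0 (z 0 / ((1 + ‖z 0‖ : ℝ) : ℂ)) else z

noncomputable def PhiS {m : ℕ} (j : Fin (m + 2)) (y : ℝ × (Fin (m + 1) → ℂ)) : Sph m :=
  StdS j (y.1, DS j y.2)

end H56Mini
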