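import Pool.Agent.Helper56.MiniS.Defs

set_option linter.all false

open Set Metric Topology Filter

namespace H56Mini



theorem ee_add (a b : ℝ) : ee (a + b) = ee a * ee b := by
  rw [ee, ee, ee, ← Complex.exp_add]
  congr 1
  push_cast
  ring

end H56Mini
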