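import Pool.Agent.Helper56.MiniS.Defs

set_option linter.all false

open Set Metric Topology Filter

namespace H56Mini



theorem ee_arg (z : ℂ) (hz : z ≠ 0) : ee (Complex.arg z / (2 * Real.pi)) = z / (‖z‖ : ℝ) := by
  have h1 := Complex.norm_mul_exp_arg_mul_I z
  have h2 : ((‖z‖ : ℝ) : ℂ) ≠ 0 := by
    exact_mod_cast (norm_ne_zero_iff.2 hz)
  have h3 : (Real.pi : ℂ) ≠ 0 := by exact_mod_cast Real.pi_ne_zero
  rw [eq_div_iff h2]
  conv_rhs => rw [← h1]
  rw [mul_comm]
  congr 1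
  unfold ee
  congr 1
  push_cast
  field_simp

end H56Mini
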