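import Pool.Agent.Helper56.MiniS.Defs

set_option linter.all false

open Set Metric Topology Filter

namespace H56Mini



theorem ee_norm (a : ℝ) : ‖ee a‖ = 1 := by
  unfold ee
  have h := Complex.norm_exp_ofReal_mul_I (2 * Real.pi * a)
  push_cast at h
  exact h

end H56Mini
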