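import Pool.Agent.Helper56.MiniS.Defs

set_option linter.all false

open Set Metric Topology Filter

namespace H56Mini



theorem nrm_eq_coe {m : ℕ} (v : Fin (m + 2) → ℂ) (hv : v ≠ 0) :
    ((nrm v : Sph m) : EC m) =
      ((‖(WithLp.toLp 2 v : EC m)‖⁻¹ : ℝ) : ℂ) • (WithLp.toLp 2 v : EC m) := by
  unfold nrm
  rw [dif_neg hv]

theorem nrm_eq_pos {m : ℕ} (v : Fin (m + 2) → ℂ) (hv : v ≠ 0) :
    0 < ‖(WithLp.toLp 2 v : EC m)‖ := by
  rw [norm_pos_iff]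
  intro h3
  apply hv
  simpa using h3

theorem nrm_eq {m : ℕ} (v v' : Fin (m + 2) → ℂ) (hv : v ≠ 0) (hv' : v' ≠ 0) :
    (nrm v : Sph m) = nrm v' ↔ ∃ c : ℝ, 0 < c ∧ ∀ i, v i = c * v' i := by
  have p1 := nrm_eq_pos v hv
  have p2 := nrm_eq_pos v' hv'
  have q1 : ((‖(WithLp.toLp 2 v : EC m)‖ : ℝ) : ℂ) ≠ 0 := by exact_mod_cast p1.ne'
  have q2 : ((‖(WithLp.toLp 2 v' : EC m)‖ : ℝ) : ℂ) ≠ 0 := by exact_mod_cast p2.ne'
  constructor
  · intro h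
    have h1 : ((nrm v : Sph m) : EC m) = ((nrm v' : Sph m) : EC m) := by rw [h]
    rw [nrm_eq_coe v hv, nrm_eq_coe v' hv'] at h1
    refine ⟨‖(WithLp.toLp 2 v : EC m)‖ * ‖(WithLp.toLp 2 v' : EC m)‖⁻¹,
      mul_pos p1 (inv_pos.mpr p2), fun i => ?_⟩
    have h2 : ((‖(WithLp.toLp 2 v : EC m)‖⁻¹ : ℝ) : ℂ) * v i =
        ((‖(WithLp.toLp 2 v' : EC m)‖⁻¹ : ℝ) : ℂ) * v' i := by
      have := congrArg (fun w : EC m => w i) h1
      simpa using this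
    calc
      v i = ((‖(WithLp.toLp 2 v : EC m)‖ : ℝ) : ℂ) *
          (((‖(WithLp.toLp 2 v : EC m)‖⁻¹ : ℝ) : ℂ) * v i) := by
          rw [Complex.ofReal_inv, ← mul_assoc, mul_inv_cancel₀ q1, one_mul]
      _ = _ := by
          rw [h2, Complex.ofReal_mul, mul_assoc]
  · rintro ⟨c, hc, h⟩
    have hcv : (WithLp.toLp 2 v : EC m) = (c : ℂ) • (WithLp.toLp 2 v' : EC m) := by
      ext i
      simpa using h i
    have hn : ‖(WithLp.toLp 2 v : EC m)‖ = c * ‖(WithLp.toLp 2 v' : EC m)‖ := by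
      rw [hcv, norm_smul, Complex.norm_real, Real.norm_eq_abs, abs_of_pos hc]
    apply Subtype.ext
    rw [nrm_eq_coe v hv, nrm_eq_coe v' hv', hn, hcv, smul_smul]
    congr 1
    have hc' : (c : ℂ) ≠ 0 := by exact_mod_cast hc.ne'
    push_cast
    field_simp

end H56Mini
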