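import Pool.Agent.Helper56.MiniS.Defs

set_option linter.all false

open Set Metric Topology Filter

namespace H56Mini



theorem nrm_self {m : ℕ} (w : Sph m) :
    (fun i => w.1 i) ≠ 0 ∧ nrm (fun i => w.1 i) = w := by
  have h1 : (WithLp.toLp 2 (fun i => w.1 i) : EC m) = w.1 := by
    ext i
    rfl
  have h2 : ‖(w : EC m)‖ = 1 := by simpa using w.2
  have h3 : (fun i => w.1 i) ≠ 0 := by
    intro h0
    rw [h0] at h1
    rw [← h1] at h2
    simp at h2
  refine ⟨h3, ?_⟩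
  unfold nrm
  rw [dif_neg h3]
  apply Subtype.ext
  show ((‖(WithLp.toLp 2 (fun i => w.1 i) : EC m)‖⁻¹ : ℝ) : ℂ) •
    (WithLp.toLp 2 (fun i => w.1 i) : EC m) = w.1
  rw [h1, h2]
  simp

end H56Mini
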