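import Pool.Agent.Helper56.MiniS.Defs

set_option linter.all false

open Set Metric Topology Filter

namespace H56Mini



theorem open_sec {X Y : Type} [TopologicalSpace X] [TopologicalSpace Y] (f : X → Y)
    (h : ∀ x, ∃ σ : Y → X, ContinuousAt σ (f x) ∧ σ (f x) = x ∧ ∀ᶠ y in 𝓝 (f x), f (σ y) = y) :
    IsOpenMap f := by
  apply IsOpenMap.of_nhds_le
  intro x
  obtain ⟨σ, hσ, hx, he⟩ := h x
  have h1 : Tendsto σ (𝓝 (f x)) (𝓝 x) := by
    have h2 : Tendsto σ (𝓝 (f x)) (𝓝 (σ (f x))) := hσ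
    rwa [hx] at h2
  intro s hs
  have hs' : f ⁻¹' s ∈ 𝓝 x := hs
  have h3 := h1 hs'
  filter_upwards [h3, he] with y hy1 hy2
  have h4 : f (σ y) ∈ s := hy1
  rwa [hy2] at h4

end H56Mini
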