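import Pool.Agent.Helper56.MiniS.Defs
import Pool.Agent.Helper56.MiniS.P_open_sec

set_option linter.all false

open Set Metric Topology Filter

namespace H56Mini



theorem ds_props (m : ℕ) (j : Fin (m + 2)) : Continuous (DS j) ∧ Function.Injective (DS j) ∧
    IsOpenMap (DS j) ∧
    ∀ z : Fin (m + 1) → ℂ, z ∈ range (DS j) ↔ ((j : ℕ) ≤ 1 → ‖z 0‖ < 1) := by
  by_cases hj : (j : ℕ) ≤ 1
  · have hD : ∀ z : Fin (m + 1) → ℂ, DS j z =
        Function.update z 0 (z 0 / ((1 + ‖z 0‖ : ℝ) : ℂ)) := by
      intro z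
      simp only [DS, if_pos hj]
    set S : (Fin (m + 1) → ℂ) → (Fin (m + 1) → ℂ) := fun w =>
      Function.update w 0 (w 0 / ((1 - ‖w 0‖ : ℝ) : ℂ)) with hS
    have hD0 : ∀ z : Fin (m + 1) → ℂ, ‖DS j z 0‖ = ‖z 0‖ / (1 + ‖z 0‖) := by
      intro z
      rw [hD, Function.update_self, norm_div, Complex.norm_real,
        Real.norm_of_nonneg (by positivity)]
    have hlt : ∀ z : Fin (m + 1) → ℂ, ‖DS j z 0‖ < 1 := by
      intro z
      rw [hD0, div_lt_one (by positivity)]
      linarith [norm_nonneg (z 0)]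
    have hSD : ∀ z, S (DS j z) = z := by
      intro z
      simp only [hS]
      rw [hD0]
      have h1 : (1 - ‖z 0‖ / (1 + ‖z 0‖) : ℝ) = 1 / (1 + ‖z 0‖) := by
        have : (1 + ‖z 0‖) ≠ 0 := by positivity
        field_simp
        ring
      rw [h1, hD]
      rw [Function.update_self, Function.update_idem]
      have h2 : ((1 + ‖z 0‖ : ℝ) : ℂ) ≠ 0 := by
        have : (1 + ‖z 0‖ : ℝ) ≠ 0 := by positivity
        exact_mod_cast this
      have h3 : z 0 / ((1 + ‖z 0‖ : ℝ) : ℂ) / ((1 / (1 + ‖z 0‖) : ℝ) : ℂ) = z 0 := by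
        rw [Complex.ofReal_div, Complex.ofReal_one]
        field_simp
      rw [h3]
      exact Function.update_eq_self 0 z
    have hDS : ∀ w : Fin (m + 1) → ℂ, ‖w 0‖ < 1 → DS j (S w) = w := by
      intro w hw
      rw [hD]
      simp only [hS]
      rw [Function.update_self, Function.update_idem]
      have h0 : (0:ℝ) < 1 - ‖w 0‖ := by linarith
      have h1 : ‖w 0 / ((1 - ‖w 0‖ : ℝ) : ℂ)‖ = ‖w 0‖ / (1 - ‖w 0‖) := by
        rw [norm_div, Complex.norm_real, Real.norm_of_nonneg h0.le]
      rw [h1]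
      have h2 : (1 + ‖w 0‖ / (1 - ‖w 0‖) : ℝ) = 1 / (1 - ‖w 0‖) := by
        have : (1 - ‖w 0‖) ≠ 0 := h0.ne'
        field_simp
        ring
      rw [h2]
      have h3 : ((1 - ‖w 0‖ : ℝ) : ℂ) ≠ 0 := by exact_mod_cast h0.ne'
      have h4 : w 0 / ((1 - ‖w 0‖ : ℝ) : ℂ) / ((1 / (1 - ‖w 0‖) : ℝ) : ℂ) = w 0 := by
        rw [Complex.ofReal_div, Complex.ofReal_one]
        field_simp
      rw [h4]
      exact Function.update_eq_self 0 w
    refine ⟨?_, ?_, ?_, ?_⟩
    · have : DS j = fun z : Fin (m + 1) → ℂ =>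
          Function.update z 0 (z 0 / ((1 + ‖z 0‖ : ℝ) : ℂ)) := funext hD
      rw [this]
      apply Continuous.update continuous_id
      apply Continuous.div (continuous_apply 0)
      · exact Complex.continuous_ofReal.comp (continuous_const.add (continuous_apply 0).norm)
      · intro z
        have : (1 + ‖z 0‖ : ℝ) ≠ 0 := by positivity
        exact_mod_cast this
    · intro z w h
      rw [← hSD z, ← hSD w, h]
    · apply open_sec
      intro x
      refine ⟨S, ?_, hSD x, ?_⟩
      · have hc : ContinuousAt (fun w : Fin (m + 1) → ℂ => w 0 / ((1 - ‖w 0‖ : ℝ) : ℂ)) (DS j x) := by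
          apply ContinuousAt.div (continuous_apply 0).continuousAt
          · exact (Complex.continuous_ofReal.comp
              (continuous_const.sub (continuous_apply 0).norm)).continuousAt
          · have : (1 - ‖DS j x 0‖ : ℝ) ≠ 0 := by
              have := hlt x
              linarith
            exact_mod_cast this
        exact ContinuousAt.update continuousAt_id 0 hc
      · have : ∀ᶠ y : Fin (m + 1) → ℂ in 𝓝 (DS j x), ‖y 0‖ < 1 :=
          (continuous_apply (0 : Fin (m + 1))).norm.continuousAt.eventually_lt_const (hlt x)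
        filter_upwards [this] with y hy
        exact hDS y hy
    · intro z
      constructor
      · rintro ⟨w, rfl⟩ _
        exact hlt w
      · intro h
        exact ⟨S z, hDS z (h hj)⟩
  · have hD : DS j = (id : (Fin (m + 1) → ℂ) → (Fin (m + 1) → ℂ)) := by
      funext z
      simp only [DS, if_neg hj, id]
    rw [hD]
    refine ⟨continuous_id, Function.injective_id, IsOpenMap.id, fun z => ?_⟩
    simp [hj]

end H56Mini
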