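import Pool.Agent.Helper56.MiniS.Defs

set_option linter.all false

open Set Metric Topology Filter

namespace H56Mini



theorem nrm_coord {m : ℕ} (v : Fin (m + 2) → ℂ) (hv : v ≠ 0) :
    ∃ c : ℝ, 0 < c ∧ ∀ i, (nrm v : Sph m).1 i = c * v i := by
  have h2 : (WithLp.toLp 2 v : EC m) ≠ 0 := by
    intro h3; apply hv; simpa using h3
  refine ⟨‖(WithLp.toLp 2 v : EC m)‖⁻¹, inv_pos.2 (norm_pos_iff.2 h2), fun i => ?_⟩
  unfold nrm
  rw [dif_neg hv]
  simp

end H56Mini
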