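import Pool.Agent.Helper56.MiniS.Defs

set_option linter.all false

open Set Metric Topology Filter

namespace H56Mini



theorem ee_cont : Continuous ee := by
  unfold ee
  fun_prop

end H56Mini
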