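import Pool.Agent.Helper56.MiniS.Defs

set_option linter.all false

open Set Metric Topology Filter

namespace H56Mini



theorem ee_eq (a b : ℝ) : ee a = ee b ↔ ∃ k : ℤ, b = a + k := by
  unfold ee
  rw [Complex.exp_eq_exp_iff_exists_int]
  have hpi : (2 * (Real.pi : ℂ) * Complex.I) ≠ 0 := Complex.two_pi_I_ne_zero
  constructor
  · rintro ⟨n, hn⟩
    refine ⟨-n, ?_⟩
    have h1 : (a : ℂ) = b + n := by
      apply mul_right_cancel₀ hpi
      linear_combination hn
    have h2 : a = b + n := by exact_mod_cast h1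
    push_cast
    linarith
  · rintro ⟨k, rfl⟩
    refine ⟨-k, ?_⟩
    push_cast
    ring

end H56Mini
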