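import Pool.Agent.Helper56.MiniS.Defs
import Pool.Agent.Helper56.MiniS.P_ee_norm

set_option linter.all false

open Set Metric Topology Filter

namespace H56Mini



theorem nrm_R {m : ℕ} (u : ℝ) (v : Fin (m + 2) → ℂ) (hv : v ≠ 0) :
    (nrm (ee u • v) : Sph m) = RS u (nrm v) := by
  have he : ee u ≠ 0 := by
    intro h
    have := ee_norm u
    rw [h, norm_zero] at this
    exact zero_ne_one this
  have hv' : ee u • v ≠ 0 := smul_ne_zero he hv
  apply Subtype.ext
  have e1 : ((nrm (ee u • v) : Sph m) : EC m) =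
      ((‖(WithLp.toLp 2 (ee u • v) : EC m)‖⁻¹ : ℝ) : ℂ) • (WithLp.toLp 2 (ee u • v) : EC m) := by
    unfold nrm
    rw [dif_neg hv']
  have e2 : ((nrm v : Sph m) : EC m) =
      ((‖(WithLp.toLp 2 v : EC m)‖⁻¹ : ℝ) : ℂ) • (WithLp.toLp 2 v : EC m) := by
    unfold nrm
    rw [dif_neg hv]
  have e3 : ((RS u (nrm v) : Sph m) : EC m) = ee u • ((nrm v : Sph m) : EC m) := rfl
  have e4 : (WithLp.toLp 2 (ee u • v) : EC m) = ee u • (WithLp.toLp 2 v : EC m) := rfl
  rw [e1, e3, e2, e4, norm_smul, ee_norm, one_mul, smul_comm]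

end H56Mini
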