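import Pool.Agent.Helper56.MiniS.Defs

set_option linter.all false

open Set Metric Topology Filter

namespace H56Mini



theorem nrm_cont {m : ℕ} (v : Fin (m + 2) → ℂ) (hv : v ≠ 0) :
    ContinuousAt (fun v : Fin (m + 2) → ℂ => (nrm v : Sph m)) v := by
  rw [Topology.IsInducing.subtypeVal.continuousAt_iff]
  have hc : Continuous (fun v : Fin (m + 2) → ℂ => (WithLp.toLp 2 v : EC m)) :=
    PiLp.continuous_toLp 2 _
  have hne : (WithLp.toLp 2 v : EC m) ≠ 0 := by
    intro h3; apply hv; simpa using h3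
  have h1 : ContinuousAt (fun v : Fin (m + 2) → ℂ =>
      ((‖(WithLp.toLp 2 v : EC m)‖⁻¹ : ℝ) : ℂ) • (WithLp.toLp 2 v : EC m)) v := by
    have h3 : ContinuousAt (fun v : Fin (m + 2) → ℂ => ‖(WithLp.toLp 2 v : EC m)‖⁻¹) v :=
      ContinuousAt.inv₀ hc.norm.continuousAt (norm_ne_zero_iff.mpr hne)
    have h4 : ContinuousAt (fun v : Fin (m + 2) → ℂ =>
        ((‖(WithLp.toLp 2 v : EC m)‖⁻¹ : ℝ) : ℂ)) v :=
      Complex.continuous_ofReal.continuousAt.comp h3
    exact h4.smul hc.continuousAt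
  refine h1.congr ?_
  have h2 : ∀ᶠ w in 𝓝 v, w ≠ 0 := isOpen_ne.mem_nhds hv
  filter_upwards [h2] with w hw
  simp only [Function.comp_apply, nrm, dif_neg hw]

end H56Mini
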