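import Pool.Agent.Helper56.MiniS.Defs
import Pool.Agent.Helper56.MiniS.P_ee_add
import Pool.Agent.Helper56.MiniS.P_ee_norm
import Pool.Agent.Helper56.MiniS.P_ee_cont
import Pool.Agent.Helper56.MiniS.P_ee_eq
import Pool.Agent.Helper56.MiniS.P_nrm_eq
import Pool.Agent.Helper56.MiniS.P_nrm_cont
import Pool.Agent.Helper56.MiniS.P_nrm_R

set_option linter.all false

open Set Metric Topology Filter

namespace H56Mini



theorem std0_same {m : ℕ} (j : Fin (m + 2)) (y : ℝ × (Fin (m + 1) → ℂ)) :
    std0 j y j = ee y.1 := by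
  unfold std0
  rw [Pi.smul_apply, Fin.insertNth_apply_same]
  simp

theorem std0_succ {m : ℕ} (j : Fin (m + 2)) (y : ℝ × (Fin (m + 1) → ℂ)) (i : Fin (m + 1)) :
    std0 j y (j.succAbove i) = ee y.1 * y.2 i := by
  unfold std0
  rw [Pi.smul_apply, Fin.insertNth_apply_succAbove]
  simp

theorem ee_ne (a : ℝ) : ee a ≠ 0 := by
  intro h
  have := ee_norm a
  rw [h] at this
  simp at this

theorem std0_ne {m : ℕ} (j : Fin (m + 2)) (y : ℝ × (Fin (m + 1) → ℂ)) : std0 j y ≠ 0 := by
  intro h
  have := congrFun h j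
  rw [std0_same] at this
  exact ee_ne _ this

theorem std0_cont {m : ℕ} (j : Fin (m + 2)) : Continuous (std0 j) := by
  refine continuous_pi (fun i => ?_)
  rcases Fin.eq_self_or_eq_succAbove j i with h | ⟨k, h⟩
  · subst h
    have : (fun y : ℝ × (Fin (m + 1) → ℂ) => std0 i y i) = fun y => ee y.1 := by
      funext y; exact std0_same i y
    rw [this]
    exact ee_cont.comp continuous_fst
  · subst h
    have : (fun y : ℝ × (Fin (m + 1) → ℂ) => std0 j y (j.succAbove k)) =
        fun y => ee y.1 * y.2 k := by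
      funext y; exact std0_succ j y k
    rw [this]
    exact (ee_cont.comp continuous_fst).mul ((continuous_apply k).comp continuous_snd)

theorem stdS_basic (m : ℕ) (j : Fin (m + 2)) : Continuous (StdS j) ∧
    (∀ t (x : Fin (m + 1) → ℂ) t' x', StdS j (t, x) = StdS j (t', x') ↔
      (∃ b : ℤ, t' = t + b) ∧ x' = x) ∧
    (∀ u t (x : Fin (m + 1) → ℂ), RS u (StdS j (t, x)) = StdS j (t + u, x)) := by
  refine ⟨?_, ?_, ?_⟩
  · rw [continuous_iff_continuousAt]
    intro y
    exact ContinuousAt.comp (f := std0 j) (g := fun v : Fin (m + 2) → ℂ => (nrm v : Sph m))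
      (nrm_cont (std0 j y) (std0_ne j y)) (std0_cont j).continuousAt
  · intro t x t' x'
    unfold StdS
    rw [nrm_eq _ _ (std0_ne _ _) (std0_ne _ _)]
    constructor
    · rintro ⟨c, hc, h⟩
      have hj := h j
      rw [std0_same, std0_same] at hj
      have hn := congrArg norm hj
      rw [norm_mul, ee_norm, ee_norm] at hn
      have hc1 : c = 1 := by
        have : ‖(c : ℂ)‖ = c := by
          rw [Complex.norm_real, Real.norm_eq_abs, abs_of_pos hc]
        rw [this] at hn
        linarith
      subst hc1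
      have hj' : ee t = ee t' := by simpa using hj
      refine ⟨(ee_eq t t').1 hj', ?_⟩
      funext i
      have hi := h (j.succAbove i)
      rw [std0_succ, std0_succ] at hi
      simp only [Complex.ofReal_one, one_mul] at hi
      rw [hj'] at hi
      exact (mul_left_cancel₀ (ee_ne t') hi).symm
    · rintro ⟨hb, rfl⟩
      have hee : ee t = ee t' := (ee_eq t t').2 hb
      refine ⟨1, one_pos, fun i => ?_⟩
      unfold std0
      simp [hee]
  · intro u t x
    unfold StdS
    rw [← nrm_R u _ (std0_ne _ _)]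
    congr 1
    unfold std0
    rw [smul_smul, ← ee_add, add_comm u t]

end H56Mini
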