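import Pool.Agent.Helper56.MiniS.Defs
import Pool.Agent.Helper56.MiniS.P_ee_norm
import Pool.Agent.Helper56.MiniS.P_ee_arg
import Pool.Agent.Helper56.MiniS.P_nrm_coord
import Pool.Agent.Helper56.MiniS.P_nrm_eq
import Pool.Agent.Helper56.MiniS.P_nrm_self
import Pool.Agent.Helper56.MiniS.P_stdS_basic
import Pool.Agent.Helper56.MiniS.P_ds_props

set_option linter.all false

open Set Metric Topology Filter

namespace H56Mini



theorem pr_std_same {m : ℕ} (j : Fin (m + 2)) (t : ℝ) (ζ : Fin (m + 1) → ℂ) :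
    std0 j (t, ζ) j = ee t := by
  simp [std0]

theorem pr_std_above {m : ℕ} (j : Fin (m + 2)) (t : ℝ) (ζ : Fin (m + 1) → ℂ) (i : Fin (m + 1)) :
    std0 j (t, ζ) (j.succAbove i) = ee t * ζ i := by
  simp [std0]

theorem pr_ee_ne (t : ℝ) : ee t ≠ 0 := by
  intro h
  have := ee_norm t
  rw [h, norm_zero] at this
  exact zero_ne_one this

theorem pr_std_ne {m : ℕ} (j : Fin (m + 2)) (t : ℝ) (ζ : Fin (m + 1) → ℂ) :
    std0 j (t, ζ) ≠ 0 := by
  intro h
  have := congrFun h j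
  rw [pr_std_same] at this
  exact pr_ee_ne t this

theorem pr_coords {m : ℕ} (j : Fin (m + 2)) (t : ℝ) (ζ : Fin (m + 1) → ℂ) :
    (StdS j (t, ζ)).1 j ≠ 0 ∧ ∀ i, (StdS j (t, ζ)).1 (j.succAbove i) =
      (StdS j (t, ζ)).1 j * ζ i := by
  obtain ⟨c, hc, hci⟩ := nrm_coord (std0 j (t, ζ)) (pr_std_ne j t ζ)
  have h1 : ∀ i, (StdS j (t, ζ)).1 i = c * std0 j (t, ζ) i := hci
  refine ⟨?_, fun i => ?_⟩
  · rw [h1, pr_std_same]
    exact mul_ne_zero (Complex.ofReal_ne_zero.2 hc.ne') (pr_ee_ne t)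
  · rw [h1, h1, pr_std_same, pr_std_above]
    ring

theorem pr_surj {m : ℕ} (j : Fin (m + 2)) (w : Sph m) (hw : w.1 j ≠ 0) :
    StdS j (Complex.arg (w.1 j) / (2 * Real.pi), fun i => w.1 (j.succAbove i) / w.1 j) = w := by
  have hn : (0 : ℝ) < ‖w.1 j‖ := norm_pos_iff.2 hw
  have hn' : ((‖w.1 j‖ : ℝ) : ℂ) ≠ 0 := by exact_mod_cast hn.ne'
  conv_rhs => rw [← (nrm_self w).2]
  show nrm (std0 j _) = _
  rw [nrm_eq _ _ (pr_std_ne j _ _) (nrm_self w).1]
  refine ⟨‖w.1 j‖⁻¹, inv_pos.2 hn, fun i => ?_⟩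
  by_cases hi : i = j
  · subst hi
    rw [pr_std_same, ee_arg _ hw]
    push_cast
    field_simp
  · obtain ⟨k, hk⟩ := Fin.exists_succAbove_eq hi
    rw [← hk, pr_std_above, ee_arg _ hw]
    push_cast
    field_simp

theorem phiS_range (m : ℕ) (j : Fin (m + 2)) (w : Sph m) :
    (∃ y, w = PhiS j y) ↔ w.1 j ≠ 0 ∧ (j = 0 → ‖w.1 1‖ < ‖w.1 0‖) ∧
      (j = 1 → ‖w.1 0‖ < ‖w.1 1‖) := by
  obtain ⟨-, -, -, hD⟩ := ds_props m j
  have e0 : (0 : Fin (m + 2)).succAbove 0 = 1 := by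
    rw [Fin.succAbove_zero]; rfl
  have e1 : (1 : Fin (m + 2)).succAbove 0 = 0 := Fin.one_succAbove_zero
  constructor
  · rintro ⟨⟨t, z⟩, rfl⟩
    obtain ⟨h1, h2⟩ := pr_coords j t (DS j z)
    have h3 := (hD (DS j z)).1 ⟨z, rfl⟩
    refine ⟨h1, ?_, ?_⟩
    · intro hj
      subst hj
      have h4 := h2 0
      rw [e0] at h4
      show ‖(StdS 0 (t, DS 0 z)).1 1‖ < ‖(StdS 0 (t, DS 0 z)).1 0‖
      rw [h4, norm_mul]
      exact mul_lt_of_lt_one_right (norm_pos_iff.2 h1) (h3 (by simp))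
    · intro hj
      subst hj
      have h4 := h2 0
      rw [e1] at h4
      show ‖(StdS 1 (t, DS 1 z)).1 0‖ < ‖(StdS 1 (t, DS 1 z)).1 1‖
      rw [h4, norm_mul]
      exact mul_lt_of_lt_one_right (norm_pos_iff.2 h1) (h3 (by simp))
  · rintro ⟨h1, h2, h3⟩
    have h4 : (fun i => w.1 (j.succAbove i) / w.1 j) ∈ range (DS j) := by
      rw [hD]
      intro hj
      have hj' : j = 0 ∨ j = 1 := by
        rcases Nat.eq_zero_or_pos (j : ℕ) with h | h
        · left; exact Fin.ext h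
        · right
          apply Fin.ext
          have : (j : ℕ) = 1 := by omega
          rw [this]; simp
      rcases hj' with hj' | hj'
      · subst hj'
        show ‖w.1 ((0 : Fin (m + 2)).succAbove 0) / w.1 0‖ < 1
        rw [e0, norm_div, div_lt_one (norm_pos_iff.2 h1)]
        exact h2 rfl
      · subst hj'
        show ‖w.1 ((1 : Fin (m + 2)).succAbove 0) / w.1 1‖ < 1
        rw [e1, norm_div, div_lt_one (norm_pos_iff.2 h1)]
        exact h3 rfl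
    obtain ⟨z, hz⟩ := h4
    refine ⟨(Complex.arg (w.1 j) / (2 * Real.pi), z), ?_⟩
    show w = StdS j (Complex.arg (w.1 j) / (2 * Real.pi), DS j z)
    rw [hz]
    exact (pr_surj j w h1).symm

end H56Mini
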