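import Pool.Agent.Helper56.MiniS.Defs
import Pool.Agent.Helper56.MiniS.P_ee_add
import Pool.Agent.Helper56.MiniS.P_ee_norm
import Pool.Agent.Helper56.MiniS.P_ee_arg
import Pool.Agent.Helper56.MiniS.P_nrm_eq
import Pool.Agent.Helper56.MiniS.P_nrm_self
import Pool.Agent.Helper56.MiniS.P_phiS_range

set_option linter.all false

open Set Metric Topology Filter

namespace H56Mini



theorem coverS (m : ℕ) (w : Sph m) :
    (∃ s t, w = PsiS (s, t, 0)) ∨ ∃ j y, w = PhiS j y := by
  have h10 : (1 : Fin (m + 2)) ≠ 0 := by
    intro h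
    have := congrArg Fin.val h
    simp at this
  by_cases hj : ∃ j : Fin (m + 2), j ≠ 0 ∧ j ≠ 1 ∧ w.1 j ≠ 0
  · obtain ⟨j, h0, h1, hw⟩ := hj
    right
    exact ⟨j, (phiS_range m j w).2 ⟨hw, fun h => absurd h h0, fun h => absurd h h1⟩⟩
  · push Not at hj
    rcases lt_trichotomy ‖w.1 0‖ ‖w.1 1‖ with h | h | h
    · right
      refine ⟨1, (phiS_range m 1 w).2 ⟨?_, fun h' => absurd h' h10, fun _ => h⟩⟩
      intro h'
      rw [h', norm_zero] at h
      exact absurd h (not_lt.2 (norm_nonneg _))
    · left
      have hw0 : w.1 0 ≠ 0 := by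
        intro h0
        have h1 : w.1 1 = 0 := by
          rw [h0, norm_zero] at h
          exact norm_eq_zero.1 h.symm
        apply (nrm_self w).1
        funext i
        by_cases hi0 : i = 0
        · rw [hi0]; exact h0
        · by_cases hi1 : i = 1
          · rw [hi1]; exact h1
          · exact hj i hi0 hi1
      have hw1 : w.1 1 ≠ 0 := by
        intro h1
        rw [h1, norm_zero] at h
        exact hw0 (norm_eq_zero.1 h)
      have hn0 : ‖w.1 0‖ ≠ 0 := norm_ne_zero_iff.2 hw0
      have hn0' : ((‖w.1 0‖ : ℝ) : ℂ) ≠ 0 := by exact_mod_cast hn0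
      have hn1' : ((‖w.1 1‖ : ℝ) : ℂ) ≠ 0 := by
        have := norm_ne_zero_iff.2 hw1
        exact_mod_cast this
      have hv : ∀ i, w.1 i = ((‖w.1 0‖ : ℝ) : ℂ) * psi0 (m := m)
          (Complex.arg (w.1 1) / (2 * Real.pi) - Complex.arg (w.1 0) / (2 * Real.pi),
            Complex.arg (w.1 0) / (2 * Real.pi), 0) i := by
        intro i
        refine Fin.cases ?_ (fun i => ?_) i
        · simp only [psi0, Fin.cons_zero]
          rw [ee_arg _ hw0]
          field_simp
        · refine Fin.cases ?_ (fun i => ?_) i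
          · simp only [psi0, Fin.cons_succ, Fin.cons_zero]
            have e1 : Complex.arg (w.1 0) / (2 * Real.pi) + (Complex.arg (w.1 1) / (2 * Real.pi)
              - Complex.arg (w.1 0) / (2 * Real.pi)) = Complex.arg (w.1 1) / (2 * Real.pi) := by
              ring
            rw [e1, ee_arg _ hw1, h]
            have e2 : ((0 : ℝ × (Fin m → ℂ)).1) = 0 := rfl
            rw [e2, Real.exp_zero]
            have e3 : (Fin.succ (0 : Fin (m + 1))) = (1 : Fin (m + 2)) := rfl
            rw [e3]
            push_cast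
            field_simp
          · simp only [psi0, Fin.cons_succ]
            have e2 : ((0 : ℝ × (Fin m → ℂ)).2) i = 0 := rfl
            rw [e2, mul_zero, mul_zero]
            apply hj
            · exact Fin.succ_ne_zero _
            · intro h'
              have := congrArg Fin.val h'
              simp at this
      refine ⟨Complex.arg (w.1 1) / (2 * Real.pi) - Complex.arg (w.1 0) / (2 * Real.pi),
            Complex.arg (w.1 0) / (2 * Real.pi), ?_⟩
      refine (nrm_self w).2.symm.trans ?_
      unfold PsiS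
      refine (nrm_eq _ _ (nrm_self w).1 ?_).2 ⟨‖w.1 0‖, lt_of_le_of_ne (norm_nonneg _) (Ne.symm hn0), hv⟩
      intro h0
      apply hw0
      rw [hv 0, h0]
      simp
    · right
      refine ⟨0, (phiS_range m 0 w).2 ⟨?_, fun _ => h, fun h' => absurd h'.symm h10⟩⟩
      intro h'
      rw [h', norm_zero] at h
      exact absurd h (not_lt.2 (norm_nonneg _))

end H56Mini
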