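import Pool.Agent.Helper56.MiniS.Defs
import Pool.Agent.Helper56.MiniS.P_ee_norm
import Pool.Agent.Helper56.MiniS.P_nrm_coord
import Pool.Agent.Helper56.MiniS.P_phiS_range

set_option linter.all false

open Set Metric Topology Filter

namespace H56Mini



theorem phiS_disj (m : ℕ) (j : Fin (m + 2)) (t : ℝ) (x : Fin (m + 1) → ℂ) (s t' : ℝ) :
    PhiS j (t, x) ≠ PsiS (s, t', 0) := by
  intro h
  have p0 : psi0 (m := m) (s, t', 0) 0 = ee t' := rfl
  have p1 : psi0 (m := m) (s, t', 0) 1 = ee (t' + s) * Real.exp 0 := rfl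
  have p2 : ∀ k : Fin m, psi0 (m := m) (s, t', 0) k.succ.succ = 0 := by
    intro k
    have h1 : psi0 (m := m) (s, t', 0) k.succ.succ = ee t' * 0 := rfl
    rw [h1, mul_zero]
  have hv : psi0 (m := m) (s, t', 0) ≠ 0 := by
    intro h0
    have h1 := congrFun h0 0
    rw [p0] at h1
    have h2 := ee_norm t'
    rw [h1] at h2
    simp at h2
  obtain ⟨c, hc, hcoord⟩ := nrm_coord (psi0 (m := m) (s, t', 0)) hv
  have hw : ∀ i, (PsiS (m := m) (s, t', 0)).1 i = c * psi0 (m := m) (s, t', 0) i := hcoord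
  have n0 : ‖(PsiS (m := m) (s, t', 0)).1 0‖ = c := by
    rw [hw 0, p0, norm_mul, ee_norm, mul_one, Complex.norm_real, Real.norm_of_nonneg hc.le]
  have n1 : ‖(PsiS (m := m) (s, t', 0)).1 1‖ = c := by
    rw [hw 1, p1, norm_mul, norm_mul, ee_norm, Real.exp_zero]
    simp [abs_of_pos hc]
  have hr := (phiS_range m j (PsiS (m := m) (s, t', 0))).mp ⟨(t, x), h.symm⟩
  obtain ⟨h1, h2, h3⟩ := hr
  rw [n0, n1] at h2 h3
  refine Fin.cases (motive := fun i => j = i → False) ?_ ?_ j rfl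
  · intro hj
    exact lt_irrefl _ (h2 hj)
  · intro i
    refine Fin.cases (motive := fun i => j = Fin.succ i → False) ?_ ?_ i
    · intro hj
      exact lt_irrefl _ (h3 hj)
    · intro k hj
      apply h1
      rw [hj, hw, p2, mul_zero]

end H56Mini
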