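import Pool.Agent.Helper56.MiniS.Defs
import Pool.Agent.Helper56.MiniS.P_ee_norm
import Pool.Agent.Helper56.MiniS.P_nrm_coord
import Pool.Agent.Helper56.MiniS.P_phiS_range

set_option linter.all false

open Set Metric Topology Filter

namespace H56Mini



theorem pn_ne (a : ℝ) : ee a ≠ 0 := by
  intro h
  have := ee_norm a
  rw [h, norm_zero] at this
  exact zero_ne_one this

theorem pn_coord {m : ℕ} (y : ℝ × ℝ × (ℝ × (Fin m → ℂ))) :
    ∃ c : ℝ, 0 < c ∧ (PsiS y : Sph m).1 0 = c * ee y.2.1 ∧
      (PsiS y : Sph m).1 1 = c * (ee (y.2.1 + y.1) * Real.exp y.2.2.1) ∧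
      ∀ k : Fin m, (PsiS y : Sph m).1 k.succ.succ = c * (ee y.2.1 * y.2.2.2 k) := by
  have hne : psi0 y ≠ 0 := by
    intro h
    have := congrFun h 0
    exact pn_ne _ this
  obtain ⟨c, hc, h⟩ := nrm_coord (psi0 y) hne
  exact ⟨c, hc, h 0, h 1, fun k => h k.succ.succ⟩

theorem phiS_near (m : ℕ) (j : Fin (m + 2)) (δ : ℝ) (hδ : 0 < δ) :
    ∃ r0 : ℝ × (Fin m → ℂ), ‖r0‖ < δ ∧ ∀ s t, ∃ y, PhiS j y = PsiS (s, t, r0) := by
  induction j using Fin.cases with
  | zero =>
    refine ⟨(-(δ / 2), 0), ?_, ?_⟩
    · rw [Prod.norm_def, max_lt_iff]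
      constructor
      · simp only [norm_neg, Real.norm_eq_abs, abs_of_pos (half_pos hδ)]
        linarith
      · simpa using hδ
    · intro s t
      obtain ⟨c, hc, h0, h1, h2⟩ := pn_coord (m := m) (s, t, (-(δ / 2), 0))
      have := (phiS_range m 0 (PsiS (s, t, (-(δ / 2), 0)))).2 ⟨?_, ?_, ?_⟩
      · obtain ⟨y, hy⟩ := this
        exact ⟨y, hy.symm⟩
      · rw [h0]
        exact mul_ne_zero (Complex.ofReal_ne_zero.2 hc.ne') (pn_ne _)
      · intro _
        rw [h0, h1]
        simp only [norm_mul, ee_norm, Complex.norm_real, Real.norm_eq_abs, abs_of_pos hc,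
          Real.abs_exp, mul_one, one_mul]
        have : Real.exp (-(δ / 2)) < 1 := by
          rw [Real.exp_lt_one_iff]; linarith
        nlinarith
      · intro h
        exact absurd h (by simp)
  | succ j =>
    induction j using Fin.cases with
    | zero =>
      refine ⟨(δ / 2, 0), ?_, ?_⟩
      · rw [Prod.norm_def, max_lt_iff]
        constructor
        · simp only [Real.norm_eq_abs, abs_of_pos (half_pos hδ)]
          linarith
        · simpa using hδ
      · intro s t
        obtain ⟨c, hc, h0, h1, h2⟩ := pn_coord (m := m) (s, t, (δ / 2, 0))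
        have := (phiS_range m (Fin.succ 0) (PsiS (s, t, (δ / 2, 0)))).2 ⟨?_, ?_, ?_⟩
        · obtain ⟨y, hy⟩ := this
          exact ⟨y, hy.symm⟩
        · change (PsiS (s, t, (δ / 2, 0)) : Sph m).1 1 ≠ 0
          rw [h1]
          exact mul_ne_zero (Complex.ofReal_ne_zero.2 hc.ne')
            (mul_ne_zero (pn_ne _) (Complex.ofReal_ne_zero.2 (Real.exp_pos _).ne'))
        · intro h
          exact absurd h (Fin.succ_ne_zero _)
        · intro _
          rw [h0, h1]
          simp only [norm_mul, ee_norm, Complex.norm_real, Real.norm_eq_abs, abs_of_pos hc,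
            Real.abs_exp, mul_one, one_mul]
          have : 1 < Real.exp (δ / 2) := Real.one_lt_exp_iff.2 (by linarith)
          nlinarith
    | succ k =>
      refine ⟨(0, Pi.single k ((δ / 2 : ℝ) : ℂ)), ?_, ?_⟩
      · rw [Prod.norm_def, max_lt_iff]
        constructor
        · simpa using hδ
        · rw [pi_norm_lt_iff hδ]
          intro i
          change ‖(Pi.single k ((δ / 2 : ℝ) : ℂ) : Fin m → ℂ) i‖ < δ
          by_cases hi : i = k
          · subst hi
            rw [Pi.single_eq_same, Complex.norm_real, Real.norm_eq_abs, abs_of_pos (half_pos hδ)]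
            linarith
          · rw [Pi.single_eq_of_ne hi]
            simpa using hδ
      · intro s t
        obtain ⟨c, hc, h0, h1, h2⟩ := pn_coord (m := m) (s, t, (0, Pi.single k ((δ / 2 : ℝ) : ℂ)))
        have := (phiS_range m k.succ.succ
          (PsiS (s, t, (0, Pi.single k ((δ / 2 : ℝ) : ℂ))))).2 ⟨?_, ?_, ?_⟩
        · obtain ⟨y, hy⟩ := this
          exact ⟨y, hy.symm⟩
        · rw [h2]
          simp only [Pi.single_eq_same]
          exact mul_ne_zero (Complex.ofReal_ne_zero.2 hc.ne')
            (mul_ne_zero (pn_ne _) (Complex.ofReal_ne_zero.2 (half_pos hδ).ne'))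
        · intro h
          exact absurd h (Fin.succ_ne_zero _)
        · intro h
          exfalso
          have := congrArg Fin.val h
          simp at this

end H56Mini
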