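import Pool.Agent.Helper56.MiniS.Defs
import Pool.Agent.Helper56.MiniS.P_ee_add
import Pool.Agent.Helper56.MiniS.P_ee_norm
import Pool.Agent.Helper56.MiniS.P_ee_cont
import Pool.Agent.Helper56.MiniS.P_ee_eq
import Pool.Agent.Helper56.MiniS.P_nrm_eq
import Pool.Agent.Helper56.MiniS.P_nrm_cont
import Pool.Agent.Helper56.MiniS.P_nrm_R

set_option linter.all false

open Set Metric Topology Filter

namespace H56Mini



theorem psiS_basic_0 {m : ℕ} (y : ℝ × ℝ × (ℝ × (Fin m → ℂ))) : psi0 y 0 = ee y.2.1 := by
  unfold psi0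
  rw [Fin.cons_zero]

theorem psiS_basic_1 {m : ℕ} (y : ℝ × ℝ × (ℝ × (Fin m → ℂ))) :
    psi0 y (Fin.succ 0) = ee (y.2.1 + y.1) * Real.exp y.2.2.1 := by
  unfold psi0
  rw [Fin.cons_succ, Fin.cons_zero]

theorem psiS_basic_2 {m : ℕ} (y : ℝ × ℝ × (ℝ × (Fin m → ℂ))) (j : Fin m) :
    psi0 y (Fin.succ (Fin.succ j)) = ee y.2.1 * y.2.2.2 j := by
  unfold psi0
  rw [Fin.cons_succ, Fin.cons_succ]

theorem psiS_basic_ne {m : ℕ} (y : ℝ × ℝ × (ℝ × (Fin m → ℂ))) : psi0 y ≠ 0 := by
  intro h
  have h1 := psiS_basic_0 y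
  rw [h] at h1
  have h2 := ee_norm y.2.1
  rw [← h1] at h2
  simp at h2

theorem psiS_basic_ext {m : ℕ} (v w : Fin (m + 2) → ℂ) (h0 : v 0 = w 0)
    (h1 : v (Fin.succ 0) = w (Fin.succ 0))
    (h2 : ∀ j : Fin m, v (Fin.succ (Fin.succ j)) = w (Fin.succ (Fin.succ j))) : v = w := by
  funext i
  refine Fin.cases h0 (fun i => ?_) i
  exact Fin.cases h1 h2 i

theorem psiS_basic_cont {m : ℕ} : Continuous (psi0 (m := m)) := by
  refine continuous_pi fun i => ?_
  refine Fin.cases ?_ (fun i => ?_) i
  · simp only [psiS_basic_0]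
    exact ee_cont.comp (continuous_fst.comp continuous_snd)
  · refine Fin.cases ?_ (fun j => ?_) i
    · simp only [psiS_basic_1]
      exact (ee_cont.comp ((continuous_fst.comp continuous_snd).add continuous_fst)).mul
        (Complex.continuous_ofReal.comp (Real.continuous_exp.comp
          (continuous_fst.comp (continuous_snd.comp continuous_snd))))
    · simp only [psiS_basic_2]
      exact (ee_cont.comp (continuous_fst.comp continuous_snd)).mul
        ((continuous_apply j).comp (continuous_snd.comp (continuous_snd.comp continuous_snd)))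

theorem psiS_basic (m : ℕ) : Continuous (PsiS (m := m)) ∧
    (∀ s t (r : ℝ × (Fin m → ℂ)) s' t' r', PsiS (s, t, r) = PsiS (s', t', r') ↔
      (∃ a : ℤ, s' = s + a) ∧ (∃ b : ℤ, t' = t + b) ∧ r' = r) ∧
    (∀ u s t (r : ℝ × (Fin m → ℂ)), RS u (PsiS (s, t, r)) = PsiS (s, t + u, r)) := by
  refine ⟨?_, ?_, ?_⟩
  · rw [continuous_iff_continuousAt]
    intro y
    exact ContinuousAt.comp (f := psi0) (nrm_cont (psi0 y) (psiS_basic_ne y))
      psiS_basic_cont.continuousAt
  · intro s t r s' t' r'
    constructor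
    · intro h
      unfold PsiS at h
      rw [nrm_eq _ _ (psiS_basic_ne _) (psiS_basic_ne _)] at h
      obtain ⟨c, hc, h⟩ := h
      have e0 := h 0
      rw [psiS_basic_0, psiS_basic_0] at e0
      simp only at e0
      have hc1 : c = 1 := by
        have := congrArg norm e0
        rw [norm_mul, ee_norm, ee_norm, Complex.norm_real, Real.norm_eq_abs, abs_of_pos hc] at this
        linarith
      subst hc1
      rw [Complex.ofReal_one, one_mul] at e0
      have e1 := h (Fin.succ 0)
      rw [psiS_basic_1, psiS_basic_1, Complex.ofReal_one, one_mul] at e1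
      simp only at e1
      have hr1 : r.1 = r'.1 := by
        have := congrArg norm e1
        rw [norm_mul, norm_mul, ee_norm, ee_norm, Complex.norm_real, Complex.norm_real,
          Real.norm_eq_abs, Real.norm_eq_abs, Real.abs_exp, Real.abs_exp, one_mul, one_mul] at this
        exact Real.exp_injective this
      have e2 : ee (t + s) = ee (t' + s') := by
        rw [hr1] at e1
        refine mul_right_cancel₀ ?_ e1
        exact_mod_cast (Real.exp_pos _).ne'
      obtain ⟨b, hb⟩ := (ee_eq t t').1 e0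
      obtain ⟨k, hk⟩ := (ee_eq _ _).1 e2
      refine ⟨⟨k - b, ?_⟩, ⟨b, hb⟩, ?_⟩
      · push_cast
        linarith
      · refine Prod.ext hr1.symm ?_
        funext j
        have e3 := h (Fin.succ (Fin.succ j))
        rw [psiS_basic_2, psiS_basic_2, Complex.ofReal_one, one_mul] at e3
        simp only at e3
        rw [e0] at e3
        have hne : ee t' ≠ 0 := by
          intro h0
          have := ee_norm t'
          rw [h0] at this
          simp at this
        exact (mul_left_cancel₀ hne e3).symm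
    · rintro ⟨⟨a, ha⟩, ⟨b, hb⟩, rfl⟩
      unfold PsiS
      congr 1
      have e0 : ee t = ee t' := (ee_eq _ _).2 ⟨b, hb⟩
      have e1 : ee (t + s) = ee (t' + s') := (ee_eq _ _).2 ⟨a + b, by push_cast; linarith⟩
      refine psiS_basic_ext _ _ ?_ ?_ fun j => ?_
      · rw [psiS_basic_0, psiS_basic_0]; exact e0
      · rw [psiS_basic_1, psiS_basic_1]
        simp only
        rw [e1]
      · rw [psiS_basic_2, psiS_basic_2]
        simp only
        rw [e0]
  · intro u s t r
    unfold PsiS
    rw [← nrm_R u _ (psiS_basic_ne _)]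
    congr 1
    refine psiS_basic_ext _ _ ?_ ?_ fun j => ?_
    · rw [Pi.smul_apply, psiS_basic_0, psiS_basic_0, smul_eq_mul]
      simp only
      rw [ee_add, mul_comm]
    · rw [Pi.smul_apply, psiS_basic_1, psiS_basic_1, smul_eq_mul]
      simp only
      rw [ee_add, ee_add, ee_add]
      ring
    · rw [Pi.smul_apply, psiS_basic_2, psiS_basic_2, smul_eq_mul]
      simp only
      rw [ee_add]
      ring
end H56Mini
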