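import Pool.Agent.Helper56.MiniS.Defs
import Pool.Agent.Helper56.MiniS.P_ee_add
import Pool.Agent.Helper56.MiniS.P_ee_norm
import Pool.Agent.Helper56.MiniS.P_ee_cont
import Pool.Agent.Helper56.MiniS.P_ee_eq
import Pool.Agent.Helper56.MiniS.P_ee_arg
import Pool.Agent.Helper56.MiniS.P_nrm_coord
import Pool.Agent.Helper56.MiniS.P_nrm_eq
import Pool.Agent.Helper56.MiniS.P_nrm_self
import Pool.Agent.Helper56.MiniS.P_nrm_cont
import Pool.Agent.Helper56.MiniS.P_open_sec

set_option linter.all false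

open Set Metric Topology Filter

namespace H56Mini



theorem psi0_zero {m : ℕ} (s t r : ℝ) (z : Fin m → ℂ) : psi0 (s, t, (r, z)) 0 = ee t := by
  simp [psi0]

theorem psi0_one {m : ℕ} (s t r : ℝ) (z : Fin m → ℂ) :
    psi0 (s, t, (r, z)) (Fin.succ 0) = ee (t + s) * Real.exp r := by
  unfold psi0
  rw [Fin.cons_succ, Fin.cons_zero]

theorem psi0_succ {m : ℕ} (s t r : ℝ) (z : Fin m → ℂ) (j : Fin m) :
    psi0 (s, t, (r, z)) (Fin.succ (Fin.succ j)) = ee t * z j := by
  unfold psi0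
  rw [Fin.cons_succ, Fin.cons_succ]

theorem ee_ne (a : ℝ) : ee a ≠ 0 := by
  intro h
  have := ee_norm a
  rw [h] at this
  simp at this

theorem ee_zero' : ee 0 = 1 := by simp [ee]

theorem ee_neg_mul (a : ℝ) : ee a * ee (-a) = 1 := by
  rw [← ee_add]; simp [ee_zero']

theorem psi0_ne {m : ℕ} (y : ℝ × ℝ × (ℝ × (Fin m → ℂ))) : psi0 y ≠ 0 := by
  obtain ⟨s, t, r, z⟩ := y
  intro h
  have := congrFun h 0
  rw [psi0_zero] at this
  exact ee_ne t this

theorem coord_cont {m : ℕ} (i : Fin (m + 2)) : Continuous (fun w : Sph m => w.1 i) := by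
  fun_prop

theorem psiS_open (m : ℕ) : IsOpenMap (PsiS (m := m)) := by
  apply open_sec
  rintro ⟨s0, t0, r0, z0⟩
  obtain ⟨c, hc, hcoord⟩ := nrm_coord (psi0 (s0, t0, r0, z0)) (psi0_ne _)
  have hcC : (c : ℂ) ≠ 0 := by exact_mod_cast hc.ne'
  have w0 : (PsiS (s0, t0, r0, z0) : Sph m).1 0 = c * ee t0 := by
    have := hcoord 0
    rw [psi0_zero] at this
    exact this
  have w1 : (PsiS (s0, t0, r0, z0) : Sph m).1 (Fin.succ 0) =
      c * (ee (t0 + s0) * Real.exp r0) := by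
    have := hcoord (Fin.succ 0)
    rw [psi0_one] at this
    exact this
  have wj : ∀ j : Fin m, (PsiS (s0, t0, r0, z0) : Sph m).1 (Fin.succ (Fin.succ j)) =
      c * (ee t0 * z0 j) := by
    intro j
    have := hcoord (Fin.succ (Fin.succ j))
    rw [psi0_succ] at this
    exact this
  have hw0 : (PsiS (s0, t0, r0, z0) : Sph m).1 0 ≠ 0 := by
    rw [w0]; exact mul_ne_zero hcC (ee_ne _)
  have hexp : ((Real.exp r0 : ℝ) : ℂ) ≠ 0 := by exact_mod_cast (Real.exp_pos r0).ne'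
  have hw1 : (PsiS (s0, t0, r0, z0) : Sph m).1 (Fin.succ 0) ≠ 0 := by
    rw [w1]; exact mul_ne_zero hcC (mul_ne_zero (ee_ne _) hexp)
  have harg1 : ((PsiS (s0, t0, r0, z0) : Sph m).1 (Fin.succ 0) /
      (PsiS (s0, t0, r0, z0) : Sph m).1 0) * ee (-s0) = ((Real.exp r0 : ℝ) : ℂ) := by
    rw [w0, w1, ee_add]
    have h1 := ee_neg_mul s0
    have h2 := ee_ne t0
    field_simp
    linear_combination h1
  have harg0 : (PsiS (s0, t0, r0, z0) : Sph m).1 0 * ee (-t0) = (c : ℂ) := by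
    rw [w0]
    linear_combination (c : ℂ) * ee_neg_mul t0
  refine ⟨fun w => (s0 + Complex.arg ((w.1 (Fin.succ 0) / w.1 0) * ee (-s0)) / (2 * Real.pi),
    t0 + Complex.arg (w.1 0 * ee (-t0)) / (2 * Real.pi),
    (Real.log (‖w.1 (Fin.succ 0)‖ / ‖w.1 0‖), fun j => w.1 (Fin.succ (Fin.succ j)) / w.1 0)),
    ?_, ?_, ?_⟩
  · have cc := fun i => (coord_cont (m := m) i).continuousAt (x := PsiS (s0, t0, r0, z0))
    refine ContinuousAt.prodMk ?_ (ContinuousAt.prodMk ?_ (ContinuousAt.prodMk ?_ ?_))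
    · refine ContinuousAt.add continuousAt_const (ContinuousAt.div_const ?_ _)
      refine ContinuousAt.comp (g := Complex.arg) ?_ ?_
      · apply Complex.continuousAt_arg
        rw [harg1]
        exact Complex.ofReal_mem_slitPlane.2 (Real.exp_pos r0)
      · exact (ContinuousAt.div (cc _) (cc _) hw0).mul continuousAt_const
    · refine ContinuousAt.add continuousAt_const (ContinuousAt.div_const ?_ _)
      refine ContinuousAt.comp (g := Complex.arg) ?_ ?_
      · apply Complex.continuousAt_arg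
        rw [harg0]
        exact Complex.ofReal_mem_slitPlane.2 hc
      · exact (cc _).mul continuousAt_const
    · refine ContinuousAt.log ?_ ?_
      · exact ContinuousAt.div (cc _).norm (cc _).norm (norm_ne_zero_iff.2 hw0)
      · exact div_ne_zero (norm_ne_zero_iff.2 hw1) (norm_ne_zero_iff.2 hw0)
    · rw [continuousAt_pi]
      intro j
      exact ContinuousAt.div (cc _) (cc _) hw0
  · simp only
    rw [harg1, harg0]
    have e1 : Complex.arg ((Real.exp r0 : ℝ) : ℂ) = 0 :=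
      Complex.arg_ofReal_of_nonneg (Real.exp_pos r0).le
    have e2 : Complex.arg ((c : ℝ) : ℂ) = 0 := Complex.arg_ofReal_of_nonneg hc.le
    rw [e1, e2]
    have e3 : ‖(PsiS (s0, t0, r0, z0) : Sph m).1 (Fin.succ 0)‖ /
        ‖(PsiS (s0, t0, r0, z0) : Sph m).1 0‖ = Real.exp r0 := by
      rw [w0, w1]
      rw [norm_mul, norm_mul, norm_mul, ee_norm, ee_norm, Complex.norm_real, Complex.norm_real,
        Real.norm_of_nonneg hc.le, Real.norm_of_nonneg (Real.exp_pos r0).le]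
      field_simp
    rw [e3, Real.log_exp]
    have e4 : (fun j : Fin m => (PsiS (s0, t0, r0, z0) : Sph m).1 (Fin.succ (Fin.succ j)) /
        (PsiS (s0, t0, r0, z0) : Sph m).1 0) = z0 := by
      funext j
      rw [w0, wj]
      have h2 := ee_ne t0
      field_simp
    rw [e4]
    simp
  · have n0 : ∀ᶠ w in 𝓝 (PsiS (s0, t0, r0, z0) : Sph m), w.1 0 ≠ 0 :=
      (coord_cont 0).continuousAt.eventually_ne hw0
    have n1 : ∀ᶠ w in 𝓝 (PsiS (s0, t0, r0, z0) : Sph m), w.1 (Fin.succ 0) ≠ 0 :=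
      (coord_cont (Fin.succ 0)).continuousAt.eventually_ne hw1
    filter_upwards [n0, n1] with w h0 h1
    have hn0 : (‖w.1 0‖ : ℝ) ≠ 0 := norm_ne_zero_iff.2 h0
    have hn1 : (‖w.1 (Fin.succ 0)‖ : ℝ) ≠ 0 := norm_ne_zero_iff.2 h1
    have hn0C : ((‖w.1 0‖ : ℝ) : ℂ) ≠ 0 := by exact_mod_cast hn0
    have hn1C : ((‖w.1 (Fin.succ 0)‖ : ℝ) : ℂ) ≠ 0 := by exact_mod_cast hn1
    have et : ee (t0 + Complex.arg (w.1 0 * ee (-t0)) / (2 * Real.pi)) =
        w.1 0 / ((‖w.1 0‖ : ℝ) : ℂ) := by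
      rw [ee_add, ee_arg _ (mul_ne_zero h0 (ee_ne _)), norm_mul, ee_norm, mul_one]
      have h2 := ee_neg_mul t0
      field_simp
      linear_combination h2
    have es : ee (s0 + Complex.arg ((w.1 (Fin.succ 0) / w.1 0) * ee (-s0)) / (2 * Real.pi)) =
        (w.1 (Fin.succ 0) / w.1 0) * (((‖w.1 0‖ : ℝ) : ℂ) / ((‖w.1 (Fin.succ 0)‖ : ℝ) : ℂ)) := by
      rw [ee_add, ee_arg _ (mul_ne_zero (div_ne_zero h1 h0) (ee_ne _)), norm_mul, ee_norm, mul_one,
        norm_div]
      have h2 := ee_neg_mul s0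
      push_cast
      field_simp
      linear_combination h2
    have key : ∀ i, psi0 (m := m) (s0 + Complex.arg ((w.1 (Fin.succ 0) / w.1 0) * ee (-s0)) / (2 * Real.pi),
        t0 + Complex.arg (w.1 0 * ee (-t0)) / (2 * Real.pi),
        (Real.log (‖w.1 (Fin.succ 0)‖ / ‖w.1 0‖), fun j => w.1 (Fin.succ (Fin.succ j)) / w.1 0)) i =
        ((‖w.1 0‖⁻¹ : ℝ) : ℂ) * w.1 i := by
      intro i
      refine Fin.cases ?_ (fun i => ?_) i
      · rw [psi0_zero, et]
        push_cast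
        field_simp
      · refine Fin.cases ?_ (fun j => ?_) i
        · rw [psi0_one, ee_add, et, es, Real.exp_log (div_pos (norm_pos_iff.2 h1) (norm_pos_iff.2 h0))]
          push_cast
          field_simp
        · rw [psi0_succ, et]
          push_cast
          field_simp
    have hs := nrm_self w
    have h3 := (nrm_eq (m := m) (psi0 (m := m) (s0 + Complex.arg ((w.1 (Fin.succ 0) / w.1 0) * ee (-s0)) / (2 * Real.pi),
        t0 + Complex.arg (w.1 0 * ee (-t0)) / (2 * Real.pi),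
        (Real.log (‖w.1 (Fin.succ 0)‖ / ‖w.1 0‖), fun j => w.1 (Fin.succ (Fin.succ j)) / w.1 0)))
        (fun i => w.1 i) (psi0_ne _) hs.1).2 ⟨‖w.1 0‖⁻¹, inv_pos.2 (norm_pos_iff.2 h0), key⟩
    unfold PsiS
    rw [h3]
    exact hs.2

end H56Mini
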