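import Pool.Agent.Helper56.MiniS.Defs
import Pool.Agent.Helper56.MiniS.P_ee_add
import Pool.Agent.Helper56.MiniS.P_ee_norm
import Pool.Agent.Helper56.MiniS.P_ee_cont
import Pool.Agent.Helper56.MiniS.P_ee_eq
import Pool.Agent.Helper56.MiniS.P_ee_arg
import Pool.Agent.Helper56.MiniS.P_nrm_coord
import Pool.Agent.Helper56.MiniS.P_nrm_eq
import Pool.Agent.Helper56.MiniS.P_nrm_self
import Pool.Agent.Helper56.MiniS.P_nrm_cont
import Pool.Agent.Helper56.MiniS.P_open_sec
import Pool.Agent.Helper56.MiniS.P_psiS_open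

set_option linter.all false

open Set Metric Topology Filter

namespace H56Mini

theorem so_std0_same {m : ℕ} (j : Fin (m + 2)) (t : ℝ) (z : Fin (m + 1) → ℂ) :
    std0 j (t, z) j = ee t := by
  simp [std0]

theorem so_std0_succ {m : ℕ} (j : Fin (m + 2)) (t : ℝ) (z : Fin (m + 1) → ℂ) (i : Fin (m + 1)) :
    std0 j (t, z) (j.succAbove i) = ee t * z i := by
  simp [std0]

theorem so_std0_ne {m : ℕ} (j : Fin (m + 2)) (y : ℝ × (Fin (m + 1) → ℂ)) : std0 j y ≠ 0 := by
  obtain ⟨t, z⟩ := y
  intro h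
  have := congrFun h j
  rw [so_std0_same] at this
  exact ee_ne t this

theorem stdS_open (m : ℕ) (j : Fin (m + 2)) : IsOpenMap (StdS j) := by
  apply open_sec
  rintro ⟨t0, z0⟩
  obtain ⟨c, hc, hcoord⟩ := nrm_coord (std0 j (t0, z0)) (so_std0_ne _ _)
  have hcC : (c : ℂ) ≠ 0 := by exact_mod_cast hc.ne'
  have w0 : (StdS j (t0, z0) : Sph m).1 j = c * ee t0 := by
    have := hcoord j
    rw [so_std0_same] at this
    exact this
  have wj : ∀ i : Fin (m + 1), (StdS j (t0, z0) : Sph m).1 (j.succAbove i) =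
      c * (ee t0 * z0 i) := by
    intro i
    have := hcoord (j.succAbove i)
    rw [so_std0_succ] at this
    exact this
  have hw0 : (StdS j (t0, z0) : Sph m).1 j ≠ 0 := by
    rw [w0]; exact mul_ne_zero hcC (ee_ne _)
  have harg0 : (StdS j (t0, z0) : Sph m).1 j * ee (-t0) = (c : ℂ) := by
    rw [w0]
    linear_combination (c : ℂ) * ee_neg_mul t0
  refine ⟨fun w => (t0 + Complex.arg (w.1 j * ee (-t0)) / (2 * Real.pi),
    fun i => w.1 (j.succAbove i) / w.1 j), ?_, ?_, ?_⟩
  · have cc := fun i => (coord_cont (m := m) i).continuousAt (x := StdS j (t0, z0))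
    refine ContinuousAt.prodMk ?_ ?_
    · refine ContinuousAt.add continuousAt_const (ContinuousAt.div_const ?_ _)
      refine ContinuousAt.comp (g := Complex.arg) ?_ ?_
      · apply Complex.continuousAt_arg
        rw [harg0]
        exact Complex.ofReal_mem_slitPlane.2 hc
      · exact (cc _).mul continuousAt_const
    · rw [continuousAt_pi]
      intro i
      exact ContinuousAt.div (cc _) (cc _) hw0
  · simp only
    rw [harg0]
    have e2 : Complex.arg ((c : ℝ) : ℂ) = 0 := Complex.arg_ofReal_of_nonneg hc.le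
    rw [e2]
    have e4 : (fun i : Fin (m + 1) => (StdS j (t0, z0) : Sph m).1 (j.succAbove i) /
        (StdS j (t0, z0) : Sph m).1 j) = z0 := by
      funext i
      rw [w0, wj]
      have h2 := ee_ne t0
      field_simp
    rw [e4]
    simp
  · have n0 : ∀ᶠ w in 𝓝 (StdS j (t0, z0) : Sph m), w.1 j ≠ 0 :=
      (coord_cont j).continuousAt.eventually_ne hw0
    filter_upwards [n0] with w h0
    have hn0 : (‖w.1 j‖ : ℝ) ≠ 0 := norm_ne_zero_iff.2 h0
    have hn0C : ((‖w.1 j‖ : ℝ) : ℂ) ≠ 0 := by exact_mod_cast hn0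
    have et : ee (t0 + Complex.arg (w.1 j * ee (-t0)) / (2 * Real.pi)) =
        w.1 j / ((‖w.1 j‖ : ℝ) : ℂ) := by
      rw [ee_add, ee_arg _ (mul_ne_zero h0 (ee_ne _)), norm_mul, ee_norm, mul_one]
      have h2 := ee_neg_mul t0
      field_simp
      linear_combination h2
    have key : ∀ i, std0 j (t0 + Complex.arg (w.1 j * ee (-t0)) / (2 * Real.pi),
        fun i => w.1 (j.succAbove i) / w.1 j) i = ((‖w.1 j‖⁻¹ : ℝ) : ℂ) * w.1 i := by
      intro i
      rcases Fin.eq_self_or_eq_succAbove j i with rfl | ⟨k, rfl⟩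
      · rw [so_std0_same, et]
        push_cast
        field_simp
      · rw [so_std0_succ, et]
        push_cast
        field_simp
    have hs := nrm_self w
    have h3 := (nrm_eq (m := m) (std0 j (t0 + Complex.arg (w.1 j * ee (-t0)) / (2 * Real.pi),
        fun i => w.1 (j.succAbove i) / w.1 j))
        (fun i => w.1 i) (so_std0_ne _ _) hs.1).2 ⟨‖w.1 j‖⁻¹, inv_pos.2 (norm_pos_iff.2 h0), key⟩
    unfold StdS
    rw [h3]
    exact hs.2

end H56Mini
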