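import Pool.Agent.Helper56.MiniS.Defs

set_option linter.all false

open Set Metric Topology Filter

namespace H56Mini



theorem stereoS (m : ℕ) (v : Sph m) :
    ∃ φ : OpenPartialHomeomorph (Sph m) (EuclideanSpace ℝ (Fin (2 * m + 3))),
      φ.source = {v}ᶜ ∧ φ.target = univ := by
  have h1 : Module.finrank ℂ (EC m) = m + 2 := by simp
  have h2 : Module.finrank ℝ (EC m) = (2 * m + 3) + 1 := by
    rw [finrank_real_of_complex, h1]
    ring
  haveI : Fact (Module.finrank ℝ (EC m) = (2 * m + 3) + 1) := ⟨h2⟩
  exact ⟨stereographic' (2 * m + 3) v, stereographic'_source v, stereographic'_target v⟩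

end H56Mini
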