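import Pool.Agent.Helper56.MiniS.Defs

set_option linter.all false

open Set Metric Topology Filter

namespace H56Mini



theorem transfer {M X : Type} [TopologicalSpace M] [T1Space M] [TopologicalSpace X] (pt : M)
    (φ : OpenPartialHomeomorph M X) (hs : φ.source = {pt}ᶜ) (ht : φ.target = univ)
    (G : M ≃ₜ M) (hG : G pt = pt)
    (hmin : ∀ x, x ≠ pt → ∀ U : Set M, IsOpen U → U.Nonempty → ∃ k : ℤ, (G ^ k) x ∈ U) :
    ∃ f : X ≃ₜ X, ∀ x, Dense {y | ∃ k : ℤ, y = (f ^ k) x} := by
  have hsrc : ∀ x : X, φ.symm x ∈ φ.source := fun x =>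
    φ.map_target (by rw [ht]; exact mem_univ x)
  have hne : ∀ x : X, φ.symm x ≠ pt := fun x => by
    have := hsrc x
    rw [hs] at this
    exact this
  have hright : ∀ x : X, φ (φ.symm x) = x := fun x => φ.right_inv (by rw [ht]; exact mem_univ x)
  have hleft : ∀ y : M, y ≠ pt → φ.symm (φ y) = y := fun y hy => φ.left_inv (by rw [hs]; exact hy)
  have hGne : ∀ y : M, y ≠ pt → G y ≠ pt := fun y hy h => hy (G.injective (by rw [h, hG]))
  have hG' : G.symm pt = pt := by
    conv_lhs => rw [← hG]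
    exact G.symm_apply_apply pt
  have hGne' : ∀ y : M, y ≠ pt → G.symm y ≠ pt := fun y hy h =>
    hy (G.symm.injective (by rw [h, hG']))
  have hcs : Continuous φ.symm := by
    rw [← continuousOn_univ, ← ht]
    exact φ.continuousOn_symm
  have hcont : ∀ F : M → M, Continuous F → (∀ y, y ≠ pt → F y ≠ pt) →
      Continuous (fun x : X => φ (F (φ.symm x))) := by
    intro F hF hF'
    refine φ.continuousOn.comp_continuous (hF.comp hcs) ?_
    intro x
    rw [hs]
    exact hF' _ (hne x)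
  let f : X ≃ₜ X :=
    { toFun := fun x => φ (G (φ.symm x))
      invFun := fun x => φ (G.symm (φ.symm x))
      left_inv := fun x => by
        show φ (G.symm (φ.symm (φ (G (φ.symm x))))) = x
        rw [hleft _ (hGne _ (hne x)), G.symm_apply_apply, hright]
      right_inv := fun x => by
        show φ (G (φ.symm (φ (G.symm (φ.symm x))))) = x
        rw [hleft _ (hGne' _ (hne x)), G.apply_symm_apply, hright]
      continuous_toFun := hcont G G.continuous hGne
      continuous_invFun := hcont G.symm G.symm.continuous hGne' }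
  have hf1 : ∀ x, φ.symm (f x) = G (φ.symm x) := fun x => hleft _ (hGne _ (hne x))
  have hf2 : ∀ x, φ.symm (f⁻¹ x) = G⁻¹ (φ.symm x) := fun x => hleft _ (hGne' _ (hne x))
  have hpow : ∀ (k : ℤ) (x : X), φ.symm ((f ^ k) x) = (G ^ k) (φ.symm x) := by
    intro k
    induction k using Int.induction_on with
    | zero => intro x; rfl
    | succ n ih =>
      intro x
      rw [zpow_add_one, zpow_add_one]
      show φ.symm ((f ^ (n : ℤ)) (f x)) = (G ^ (n : ℤ)) (G (φ.symm x))
      rw [ih, hf1]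
    | pred n ih =>
      intro x
      rw [zpow_sub_one, zpow_sub_one]
      show φ.symm ((f ^ (-(n : ℤ))) (f⁻¹ x)) = (G ^ (-(n : ℤ))) (G⁻¹ (φ.symm x))
      rw [ih, hf2]
  refine ⟨f, ?_⟩
  intro x
  rw [dense_iff_inter_open]
  intro V hV hVn
  obtain ⟨v, hv⟩ := hVn
  obtain ⟨k, hk⟩ := hmin (φ.symm x) (hne x) (φ.source ∩ φ ⁻¹' V) (φ.isOpen_inter_preimage hV)
    ⟨φ.symm v, hsrc v, by
      show φ (φ.symm v) ∈ V
      rw [hright]; exact hv⟩
  refine ⟨(f ^ k) x, ?_, k, rfl⟩
  have h1 : φ ((G ^ k) (φ.symm x)) ∈ V := hk.2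
  rw [← hpow, hright] at h1
  exact h1

end H56Mini
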