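import Pool.Agent.Helper56.Mini.P_main_abs
import Pool.Agent.Helper56.MiniS.P_psiS_basic
import Pool.Agent.Helper56.MiniS.P_psiS_open
import Pool.Agent.Helper56.MiniS.P_stdS_basic
import Pool.Agent.Helper56.MiniS.P_stdS_open
import Pool.Agent.Helper56.MiniS.P_ds_props
import Pool.Agent.Helper56.MiniS.P_phiS_near
import Pool.Agent.Helper56.MiniS.P_coverS
import Pool.Agent.Helper56.MiniS.P_phiS_disj
import Pool.Agent.Helper56.MiniS.P_stereoS
import Pool.Agent.Helper56.MiniS.P_transfer
import Pool.Agent.Helper56.MiniS.P_RS_props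

set_option linter.all false

open Set Metric Topology Filter

namespace H56Mini

/-- the sphere `S^{2m+3}` with the Hopf action is a model. -/
noncomputable def modelS (m : ℕ) :
    Model (Sph m) (ℝ × (Fin m → ℂ)) (Fin (m + 1) → ℂ) (Fin (m + 2)) where
  R := RS
  R_cont := (RS_props m).1
  R_zero := (RS_props m).2.1
  R_add := (RS_props m).2.2.1
  R_one := (RS_props m).2.2.2
  Psi := PsiS
  Psi_cont := (psiS_basic m).1
  Psi_open := psiS_open m
  Psi_eq := (psiS_basic m).2.1
  Psi_R := (psiS_basic m).2.2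
  Phi := PhiS
  Phi_cont := fun j => (stdS_basic m j).1.comp
    (continuous_fst.prodMk ((ds_props m j).1.comp continuous_snd))
  Phi_open := fun j => (stdS_open m j).comp (IsOpenMap.id.prodMap (ds_props m j).2.2.1)
  Phi_eq := fun j t x t' x' => by
    have h := (stdS_basic m j).2.1 t (DS j x) t' (DS j x')
    have h2 := (ds_props m j).2.1
    constructor
    · intro h3
      obtain ⟨h4, h5⟩ := h.1 h3
      exact ⟨h4, h2 h5⟩
    · rintro ⟨h4, h5⟩
      exact h.2 ⟨h4, by rw [h5]⟩
  Phi_R := fun j u t x => (stdS_basic m j).2.2 u t (DS j x)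
  Phi_disj := phiS_disj m
  Phi_near := phiS_near m
  cover := coverS m

/-- for every odd `n = 2m+3` there is a homeomorphism of `ℝⁿ` all of whose orbits are dense. -/
theorem exists_minimal (m : ℕ) :
    ∃ f : EuclideanSpace ℝ (Fin (2 * m + 3)) ≃ₜ EuclideanSpace ℝ (Fin (2 * m + 3)),
      ∀ x, Dense {y | ∃ k : ℤ, y = (f ^ k) x} := by
  obtain ⟨G, hG, hmin⟩ := main_abs (modelS m)
  obtain ⟨φ, hs, ht⟩ := stereoS m (modelS m).pt
  exact transfer (modelS m).pt φ hs ht G hG hmin

end H56Mini
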