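import Pool.Agent.Helper56.MiniS.Defs
import Pool.Agent.Helper56.MiniS.P_ee_add
import Pool.Agent.Helper56.MiniS.P_ee_norm
import Pool.Agent.Helper56.MiniS.P_ee_cont

set_option linter.all false

open Set Metric Topology Filter

namespace H56Mini



theorem RS_props (m : ℕ) : Continuous (fun p : ℝ × Sph m => RS p.1 p.2) ∧
    (∀ w : Sph m, RS 0 w = w) ∧ (∀ a b (w : Sph m), RS (a + b) w = RS a (RS b w)) ∧
    (∀ w : Sph m, RS 1 w = w) := by
  refine ⟨?_, ?_, ?_, ?_⟩
  · apply Continuous.subtype_mk
    exact (ee_cont.comp continuous_fst).smul (continuous_subtype_val.comp continuous_snd)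
  · intro w
    apply Subtype.ext
    have h : ee 0 = 1 := by simp [ee]
    simp [RS, h]
  · intro a b w
    apply Subtype.ext
    simp only [RS, ee_add, smul_smul]
  · intro w
    apply Subtype.ext
    have h : ee 1 = 1 := by
      simp only [ee]
      have := Complex.exp_two_pi_mul_I
      simpa using this
    simp [RS, h]

end H56Mini
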